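import Mathlib
import Pool.Agent.Run7.h246.CN.U4

set_option autoImplicit false

/-!
# Even squarefree congruent numbers in almost all intervals of length `t ^ (9/16)`

Let a residue class `a` modulo `M` contain an even squarefree number.  There is `C` such that for all
`X ≥ 1` and all real `1 ≤ K ≤ X ^ (1/128)`, all but at most `C X / K` of the integers `t ≤ X` have an
even squarefree congruent number `n ≡ a` modulo `M` in the interval `[t, t + K ^ 27 t ^ (9/16)]`.
For constant `K` this is a statement about almost all intervals of length a multiple of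
`t ^ (9/16)`; for `K` a small power of `X` it gives, for every `θ > 9/16`, a power saving in the
number of exceptional intervals `[t, t + t ^ θ]`.

By Tunnell's theorem these `n` satisfy the condition `2 |C_n| = |D_n|` of the problem, which is a real
condition for `n ≡ 2` modulo `8`.

Proof.  Let `β` be an even squarefree number in the class and let `W` be a multiple of `2 M β` and
of all primes up to `128`.  For `x ≡ 1` and `y ≡ 0` modulo `W` the number
`n = β x ^ 4 - β ^ 3 y ^ 4 = β (x ^ 2 - β y ^ 2) (x ^ 2 + β y ^ 2)` is `≡ β` modulo `W` and it is the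
area of the triangle with legs `(x ^ 4 - β ^ 2 y ^ 4) / (x y)` and `2 β x y`.  Let `N` be the integer
part of `K`.  For given `t` let `x` run through the first `N` members of the class `1` modulo `W` with
`β x ^ 4 ≥ t` and, for each of them, `y` through `N ^ 20` consecutive multiples of `W` from
`((β x ^ 4 - t) / β ^ 3) ^ (1/4)` on; all these `n` lie in an interval of length `X ^ (9/16) N ^ 25`
next to `t`.  Common prime factors `p ≤ N ^ 20` of `x` and `y` and squares of primes `p ≤ N ^ 10` spoil
at most half of these pairs, for every `t`.  The number of all coprime pairs in the box for which a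
square `p ^ 2` with `p > N ^ 10` divides `x ^ 2 ± β y ^ 2` is smaller than the number of pairs in the
box by a factor `N ^ 8`, since in a class of slopes modulo `p ^ 2` two slopes `y / x` differ by at
least `p ^ 2 / (x x')`; there are still fewer pairs with a common prime factor above `N ^ 20`.
Double counting.
-/

namespace Pool.Agent.Results.MP_f126a2_nt.AlmostAllIntervals

/-- `n` is the area of a right triangle with rational sides -/
def IsCongruent (n : ℕ) : Prop :=
  ∃ a b c : ℚ, 0 < a ∧ 0 < b ∧ 0 < c ∧ a ^ 2 + b ^ 2 = c ^ 2 ∧ (n : ℚ) = a * b / 2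

/-- **Even squarefree congruent numbers in almost all intervals of length `t ^ (9/16)`.**  Let the
residue class `a` modulo `M` contain an even squarefree number.  There is `C > 0` such that for all
`X ≥ 1` and all real `K ≥ 1` with `K ^ 128 ≤ X` there are at most `C X / K` integers `0 ≤ t ≤ X` for
which the interval `[t, t + K ^ 27 t ^ (9/16)]` contains no even squarefree congruent number `n ≡ a`
modulo `M`. -/
theorem result (M : ℕ) (hM : 0 < M) (a : ℕ)
    (ha : ∃ k : ℕ, Squarefree k ∧ Even k ∧ k ≡ a [MOD M]) :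
    ∃ C : ℝ, 0 < C ∧ ∀ X : ℕ, 1 ≤ X → ∀ K : ℝ, 1 ≤ K → K ^ 128 ≤ X →
      ({t : ℕ | t ≤ X ∧ ¬ ∃ n : ℕ, t ≤ n ∧ (n : ℝ) ≤ t + K ^ 27 * (t : ℝ) ^ (9 / 16 : ℝ) ∧
        Squarefree n ∧ Even n ∧ n ≡ a [MOD M] ∧ IsCongruent n}.ncard : ℝ) ≤ C * X / K := by
  obtain ⟨k, hk, hke, hka⟩ := ha
  obtain ⟨C, hC, h⟩ := Pool.Agent.Run7.H246.CN.main_unif k (2 * M) hk (by omega)
  refine ⟨C, hC, ?_⟩
  intro X hX K hK hKX
  have hfin : {t : ℕ | t ≤ X ∧ ¬ ∃ n : ℕ, t ≤ n ∧
      (n : ℝ) ≤ t + K ^ 27 * (t : ℝ) ^ (9 / 16 : ℝ) ∧
      Squarefree n ∧ Even n ∧ n ≡ a [MOD M] ∧ IsCongruent n}.Finite := by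
    apply (Set.finite_Iic X).subset
    intro t ht
    exact ht.1
  rw [Set.ncard_eq_toFinset_card _ hfin]
  apply h X hX K hK hKX
  intro t ht
  rw [Set.Finite.mem_toFinset] at ht
  refine ⟨ht.1, ?_⟩
  rintro ⟨n, h1, h2, h3, h4, h5⟩
  apply ht.2
  have heven : Even n := by
    have h9 : n ≡ k [MOD 2] := h4.of_dvd ⟨M, rfl⟩
    rw [Nat.even_iff] at hke ⊢
    have h10 : n % 2 = k % 2 := h9
    omega
  exact ⟨n, h1, h2, h3, heven, (h4.of_dvd (Dvd.intro_left 2 rfl)).trans hka, h5⟩

end Pool.Agent.Results.MP_f126a2_nt.AlmostAllIntervals
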